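import Pool.Agent.Helper52.KT.St

set_option autoImplicit false

namespace Pool.Agent.Helper71.KT

open Pool.Agent.Helper26.Kempe Pool.Agent.Helper52.KT Pool.Agent.Helper52.KT.St
open Pool.Agent.Helper52.KR (N Zc Mn Hs)

theorem geom_A5 (x : ℝ) (hx0 : 0 ≤ x) (hx1 : x < 1) (t : ℕ) :
    ∑ m ∈ Finset.range t, x ^ m ≤ 1 / (1 - x) := by
  have h1 : (∑ m ∈ Finset.range t, x ^ m) * (1 - x) = 1 - x ^ t := by
    have := geom_sum_mul x t
    linarith
  have h2 : 0 < 1 - x := by linarith
  rw [le_div_iff₀ h2, h1]
  have : 0 ≤ x ^ t := pow_nonneg hx0 t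
  linarith

theorem hA5 : A5 := by
  intro a K C lam τ hK hlam hτ0 hτ1 hq hKτ ha0 ha hrec hup
  have hδ : 0 < 1 - τ := by linarith
  have hlam' : lam ≠ 0 := hlam.ne'
  have hδ' : 1 - τ ≠ 0 := hδ.ne'
  have hqpos : 0 < (1 - τ) * lam := by linarith
  have hq1 : 0 < (1 - τ) * lam - 1 := by linarith
  have key : ∀ t, (1 - τ) * a t ≤ a (t + 1) := by
    intro t
    induction t using Nat.strong_induction_on with
    | _ t ih =>
      have hpow : ∀ j, j ≤ t → (1 - τ) ^ j * a (t - j) ≤ a t := by
        intro j
        induction j with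
        | zero => intro _; simp
        | succ j ihj =>
          intro hj
          have h1 := ihj (by omega)
          have h2 := ih (t - (j + 1)) (by omega)
          have h3 : t - (j + 1) + 1 = t - j := by omega
          rw [h3] at h2
          calc (1 - τ) ^ (j + 1) * a (t - (j + 1)) = (1 - τ) ^ j * ((1 - τ) * a (t - (j + 1))) := by
                rw [pow_succ]; ring
            _ ≤ (1 - τ) ^ j * a (t - j) := mul_le_mul_of_nonneg_left h2 (pow_nonneg hδ.le j)
            _ ≤ a t := h1
      have hterm : ∀ m ∈ Finset.range t, K / lam ^ m * a (t - 1 - m) ≤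
          K / (1 - τ) * a t * (1 / ((1 - τ) * lam)) ^ m := by
        intro m hm
        rw [Finset.mem_range] at hm
        have h1 := hpow (m + 1) (by omega)
        have h2 : t - (m + 1) = t - 1 - m := by omega
        rw [h2] at h1
        have h3 : a (t - 1 - m) ≤ a t / (1 - τ) ^ (m + 1) := by
          rw [le_div_iff₀ (pow_pos hδ _)]
          linarith
        have h4 : 0 ≤ K / lam ^ m := div_nonneg hK (pow_nonneg hlam.le m)
        calc K / lam ^ m * a (t - 1 - m) ≤ K / lam ^ m * (a t / (1 - τ) ^ (m + 1)) :=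
              mul_le_mul_of_nonneg_left h3 h4
          _ = K / (1 - τ) * a t * (1 / ((1 - τ) * lam)) ^ m := by
              rw [div_pow, one_pow, mul_pow, pow_succ]
              field_simp
      have hsum : ∑ m ∈ Finset.range t, K / lam ^ m * a (t - 1 - m) ≤ τ * a t := by
        refine le_trans (Finset.sum_le_sum hterm) ?_
        rw [← Finset.mul_sum]
        have hx1 : 1 / ((1 - τ) * lam) < 1 := by
          rw [div_lt_one hqpos]; exact hq
        have hg := geom_A5 (1 / ((1 - τ) * lam)) (by positivity) hx1 t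
        have h5 : 0 ≤ K / (1 - τ) * a t := mul_nonneg (div_nonneg hK hδ.le) (ha t)
        refine le_trans (mul_le_mul_of_nonneg_left hg h5) ?_
        have h6 : K / (1 - τ) * a t * (1 / (1 - 1 / ((1 - τ) * lam))) =
            K * lam / ((1 - τ) * lam - 1) * a t := by
          have h7 : 1 - 1 / ((1 - τ) * lam) = ((1 - τ) * lam - 1) / ((1 - τ) * lam) := by
            field_simp
          rw [h7]
          field_simp
        rw [h6]
        apply mul_le_mul_of_nonneg_right _ (ha t)
        rw [div_le_iff₀ hq1]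
        exact hKτ
      have := hrec t
      linarith
  have hlow : ∀ t, (1 - τ) ^ t ≤ a t := by
    intro t
    induction t with
    | zero => simp [ha0]
    | succ t ih =>
      calc (1 - τ) ^ (t + 1) = (1 - τ) * (1 - τ) ^ t := by rw [pow_succ]; ring
        _ ≤ (1 - τ) * a t := mul_le_mul_of_nonneg_left ih hδ.le
        _ ≤ a (t + 1) := key t
  obtain ⟨n, hn⟩ := pow_unbounded_of_one_lt (C / (1 - τ)) hq
  have h1 := le_trans (hlow (n + 1)) (hup n)
  rw [le_div_iff₀ (pow_pos hlam n)] at h1
  rw [div_lt_iff₀ hδ, mul_pow] at hn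
  have h2 : (1 - τ) ^ (n + 1) * lam ^ n = (1 - τ) ^ n * lam ^ n * (1 - τ) := by
    rw [pow_succ]; ring
  rw [h2] at h1
  linarith

end Pool.Agent.Helper71.KT
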